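import Pool.Agent.Helper42.DB.Goals3

/-! Reparametrization of a closed curve of positive curvature by the normal angle
(packet REPAR2 of MP_48f005_an). -/

set_option autoImplicit false

namespace Pool.Agent.Helper42.DB.PkREPAR2

open Set Filter Topology

lemma ee_eq_exp (θ : ℝ) : ee θ = Complex.exp ((θ : ℂ) * Complex.I) := by
  apply Complex.ext
  · rw [Complex.exp_ofReal_mul_I_re]
    rfl
  · rw [Complex.exp_ofReal_mul_I_im]
    rfl

lemma tt_eq_I_ee (θ : ℝ) : tt θ = Complex.I * ee θ := by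
  apply Complex.ext <;> simp

/-- a positive continuous periodic function is between two positive constants -/
lemma per_bounds (f : ℝ → ℝ) (hf : Continuous f) (hp : ∀ t, f (t + 1) = f t)
    (h0 : ∀ t, 0 < f t) : ∃ m M : ℝ, 0 < m ∧ (∀ t, m ≤ f t) ∧ ∀ t, f t ≤ M := by
  have hper : Function.Periodic f 1 := hp
  have hfr : ∀ t, f t = f (Int.fract t) := by
    intro t
    have := hper.sub_zsmul_eq (x := t) ⌊t⌋
    rw [← this]
    congr 1
    rw [Int.fract]
    simp
  have hmem : ∀ t : ℝ, Int.fract t ∈ Icc (0:ℝ) 1 := fun t =>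
    ⟨Int.fract_nonneg t, (Int.fract_lt_one t).le⟩
  obtain ⟨x, hx, hx'⟩ := (isCompact_Icc (a := (0:ℝ)) (b := 1)).exists_isMinOn
    ⟨0, by simp⟩ hf.continuousOn
  obtain ⟨y, hy, hy'⟩ := (isCompact_Icc (a := (0:ℝ)) (b := 1)).exists_isMaxOn
    ⟨0, by simp⟩ hf.continuousOn
  refine ⟨f x, f y, h0 x, fun t => ?_, fun t => ?_⟩
  · rw [hfr t]
    exact hx' (hmem t)
  · rw [hfr t]
    exact hy' (hmem t)

theorem thm : G_REPAR2 := by
  intro γ hγ hper hcurv
  set g1 : ℝ → ℂ := deriv γ with hg1
  set g2 : ℝ → ℂ := deriv g1 with hg2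
  have hγ1 : ∀ t, HasDerivAt γ (g1 t) t := fun t =>
    (hγ.differentiable (by norm_num) t).hasDerivAt
  have hc1 : ContDiff ℝ 1 g1 := by
    have h : ContDiff ℝ (1 + 1) γ := by
      have : (1 + 1 : WithTop ℕ∞) = 2 := by norm_num
      rw [this]
      exact hγ
    exact (contDiff_succ_iff_deriv.1 h).2.2
  have hd1 : ∀ t, HasDerivAt g1 (g2 t) t := fun t =>
    (hc1.differentiable (by norm_num) t).hasDerivAt
  have hg1c : Continuous g1 := hc1.continuous
  have hg2c : Continuous g2 := hc1.continuous_deriv (by norm_num)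
  have hp1 : ∀ t, g1 (t + 1) = g1 t := by
    intro t
    have h := deriv_comp_add_const γ 1 t
    have h2 : (fun x => γ (x + 1)) = γ := funext hper
    rw [h2] at h
    exact h.symm
  have hp2 : ∀ t, g2 (t + 1) = g2 t := by
    intro t
    have h := deriv_comp_add_const g1 1 t
    have h2 : (fun x => g1 (x + 1)) = g1 := funext hp1
    rw [h2] at h
    exact h.symm
  have hcurv' : ∀ t, 0 < ((starRingEnd ℂ) (g1 t) * g2 t).im := by
    intro t
    have e1 : g1 t = g1 (Int.fract t) := by
      have hpp : Function.Periodic g1 1 := hp1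
      have := hpp.sub_zsmul_eq (x := t) ⌊t⌋
      rw [← this]
      congr 1
      rw [Int.fract]
      simp
    have e2 : g2 t = g2 (Int.fract t) := by
      have hpp : Function.Periodic g2 1 := hp2
      have := hpp.sub_zsmul_eq (x := t) ⌊t⌋
      rw [← this]
      congr 1
      rw [Int.fract]
      simp
    rw [e1, e2]
    exact hcurv _ ⟨Int.fract_nonneg t, (Int.fract_lt_one t).le⟩
  have hne : ∀ t, g1 t ≠ 0 := by
    intro t h
    have := hcurv' t
    rw [h] at this
    simp at this
  have hs0 : ∀ t, 0 < ‖g1 t‖ := fun t => norm_pos_iff.2 (hne t)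
  -- the logarithmic derivative
  set q : ℝ → ℂ := fun t => g2 t / g1 t with hq
  have hqc : Continuous q := hg2c.div hg1c hne
  set κ : ℝ → ℝ := fun t => (q t).im with hκ
  have hκc : Continuous κ := Complex.continuous_im.comp hqc
  have hκ0 : ∀ t, 0 < κ t := by
    intro t
    have h1 : q t = ((starRingEnd ℂ) (g1 t) * g2 t) / ((‖g1 t‖ ^ 2 : ℝ) : ℂ) := by
      rw [hq]
      have h2 : ((‖g1 t‖ ^ 2 : ℝ) : ℂ) = (starRingEnd ℂ) (g1 t) * g1 t := by
        rw [← Complex.normSq_eq_norm_sq, Complex.normSq_eq_conj_mul_self]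
      rw [h2]
      have h3 : (starRingEnd ℂ) (g1 t) ≠ 0 := by
        rw [Ne, map_eq_zero]
        exact hne t
      rw [mul_div_mul_left _ _ h3]
    change 0 < (q t).im
    rw [h1, Complex.div_ofReal_im]
    exact div_pos (hcurv' t) (pow_pos (hs0 t) 2)
  have hqp : ∀ t, q (t + 1) = q t := fun t => by
    change g2 (t + 1) / g1 (t + 1) = g2 t / g1 t
    rw [hp1, hp2]
  have hκp : ∀ t, κ (t + 1) = κ t := fun t => by
    change (q (t + 1)).im = (q t).im
    rw [hqp]
  obtain ⟨κ0, κ1, hκ00, hκlo, -⟩ := per_bounds κ hκc hκp hκ0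
  obtain ⟨r0, r1, hr0, hrlo, hrhi⟩ := per_bounds (fun t => ‖g1 t‖ / κ t)
    (hg1c.norm.div hκc fun t => (hκ0 t).ne')
    (fun t => by
      rw [hp1, hκp]) (fun t => div_pos (hs0 t) (hκ0 t))
  set L : ℝ → ℂ := fun t => ∫ x in (0:ℝ)..t, q x with hL
  have hL' : ∀ t, HasDerivAt L (q t) t := fun t =>
    intervalIntegral.integral_hasDerivAt_right (hqc.intervalIntegrable _ _)
      (hqc.stronglyMeasurableAtFilter _ _) hqc.continuousAt
  have hL0 : L 0 = 0 := by simp [hL]
  have hg1L : ∀ t, g1 t = g1 0 * Complex.exp (L t) := by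
    have hder : ∀ t, HasDerivAt (fun t => g1 t * Complex.exp (-L t)) 0 t := by
      intro t
      have h : HasDerivAt (fun t => g1 t * Complex.exp (-L t))
        (g2 t * Complex.exp (-L t) + g1 t * (Complex.exp (-L t) * -q t)) t :=
        (hd1 t).mul ((hL' t).neg.cexp)
      have h2 : g2 t * Complex.exp (-L t) + g1 t * (Complex.exp (-L t) * -q t) = 0 := by
        have h3 : g1 t * q t = g2 t := by
          change g1 t * (g2 t / g1 t) = g2 t
          field_simp [hne t]
        linear_combination -Complex.exp (-L t) * h3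
      rw [h2] at h
      exact h
    intro t
    have hconst := is_const_of_deriv_eq_zero
      (fun t => (hder t).differentiableAt) (fun t => (hder t).deriv) t 0
    have h5 : g1 t * Complex.exp (-L t) = g1 0 := by
      have : g1 t * Complex.exp (-L t) = g1 0 * Complex.exp (-L 0) := hconst
      rw [this, hL0]
      simp
    rw [← h5, mul_assoc, ← Complex.exp_add]
    simp
  -- the angle
  set σ0 : ℝ := Complex.arg (-(Complex.I * g1 0)) with hσ0
  have hee0 : Complex.exp ((σ0 : ℂ) * Complex.I) = -(Complex.I * g1 0) / (‖g1 0‖ : ℂ) := by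
    have h := Complex.norm_mul_exp_arg_mul_I (-(Complex.I * g1 0))
    have hn : ‖-(Complex.I * g1 0)‖ = ‖g1 0‖ := by simp
    rw [hn] at h
    have h0 : (‖g1 0‖ : ℂ) ≠ 0 := by
      exact_mod_cast (hs0 0).ne'
    rw [eq_div_iff h0, mul_comm]
    exact h
  set σ : ℝ → ℝ := fun t => σ0 + (L t).im with hσ
  have hσ' : ∀ t, HasDerivAt σ (κ t) t := by
    intro t
    have h := (Complex.imCLM.hasFDerivAt.comp_hasDerivAt t (hL' t)).const_add σ0
    exact h
  have hσc : Continuous σ := continuous_iff_continuousAt.2 fun t => (hσ' t).continuousAt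
  have heeσ : ∀ t, ee (σ t) = -(Complex.I * g1 t) / (‖g1 t‖ : ℂ) := by
    intro t
    have h0 : (‖g1 0‖ : ℂ) ≠ 0 := by exact_mod_cast (hs0 0).ne'
    rw [ee_eq_exp]
    have h1 : ((σ t : ℝ) : ℂ) * Complex.I = (σ0 : ℂ) * Complex.I + ((L t).im : ℂ) * Complex.I := by
      rw [hσ]
      push_cast
      ring
    rw [h1, Complex.exp_add, hee0]
    have h2 : ‖g1 t‖ = ‖g1 0‖ * Real.exp (L t).re := by
      rw [hg1L t, norm_mul, Complex.norm_exp]
    have h3 : Complex.exp (L t) = ((Real.exp (L t).re : ℝ) : ℂ) *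
        Complex.exp (((L t).im : ℂ) * Complex.I) := by
      rw [Complex.ofReal_exp, ← Complex.exp_add, Complex.re_add_im]
    have h4 : ((Real.exp (L t).re : ℝ) : ℂ) ≠ 0 := by
      exact_mod_cast (Real.exp_pos _).ne'
    rw [h2, hg1L t, h3]
    push_cast
    field_simp
  have hσmono : StrictMono σ :=
    strictMono_of_hasDerivAt_pos hσ' hκ0
  have hgrow : ∀ s t, s ≤ t → κ0 * (t - s) ≤ σ t - σ s := by
    intro s t hst
    have hmono : Monotone (fun x => σ x - κ0 * x) := by
      refine monotone_of_hasDerivAt_nonneg (f' := fun x => κ x - κ0) ?_ ?_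
      · intro x
        have h : HasDerivAt (fun x => σ x - κ0 * x) (κ x - κ0 * 1) x :=
          (hσ' x).sub ((hasDerivAt_id x).const_mul κ0)
        rw [mul_one] at h
        exact h
      · intro x
        have := hκlo x
        change 0 ≤ κ x - κ0
        linarith
    have := hmono hst
    simp only at this
    linarith
  have hsurj : Function.Surjective σ := by
    refine hσc.surjective ?_ ?_
    · refine tendsto_atTop_mono' atTop (f₁ := fun t => κ0 * t + σ 0) ?_ ?_
      · filter_upwards [eventually_ge_atTop (0:ℝ)] with t ht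
        have := hgrow 0 t ht
        linarith
      · exact tendsto_atTop_add_const_right _ _ (tendsto_id.const_mul_atTop hκ00)
    · refine tendsto_atBot_mono' atBot (f₁ := fun t => κ0 * t + σ 0) ?_ ?_
      · filter_upwards [eventually_le_atBot (0:ℝ)] with t ht
        have := hgrow t 0 ht
        linarith
      · exact tendsto_atBot_add_const_right _ _ (tendsto_id.const_mul_atBot hκ00)
  have hσper : ∃ k : ℤ, ∀ t, σ (t + 1) = σ t + 2 * Real.pi * k := by
    have hconst : ∀ t, σ (t + 1) - σ t = σ (0 + 1) - σ 0 := by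
      have hder : ∀ t, HasDerivAt (fun t => σ (t + 1) - σ t) 0 t := by
        intro t
        have h := ((hσ' (t + 1)).comp_add_const t 1).sub (hσ' t)
        rw [hκp, sub_self] at h
        exact h
      intro t
      exact is_const_of_deriv_eq_zero (fun t => (hder t).differentiableAt)
        (fun t => (hder t).deriv) t 0
    have h1 : ee (σ (0 + 1)) = ee (σ 0) := by
      rw [heeσ, heeσ, hp1]
    obtain ⟨k, hk⟩ : ∃ k : ℤ, σ (0 + 1) = σ 0 + 2 * Real.pi * k := by
      rw [ee_eq_exp, ee_eq_exp, Complex.exp_eq_exp_iff_exists_int] at h1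
      obtain ⟨k, hk⟩ := h1
      refine ⟨k, ?_⟩
      have := congrArg Complex.im hk
      simp at this
      simp only [zero_add]
      linarith
    refine ⟨k, fun t => ?_⟩
    have := hconst t
    rw [hk] at this
    linarith
  -- the inverse
  let e : ℝ ≃o ℝ := hσmono.orderIsoOfSurjective σ hsurj
  have he : ∀ t, e t = σ t := fun t => rfl
  set τ : ℝ → ℝ := fun u => e.symm u with hτ
  have hτc : Continuous τ := e.symm.continuous
  have hστ : ∀ u, σ (τ u) = u := fun u => e.apply_symm_apply u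
  have hτσ : ∀ t, τ (σ t) = t := fun t => e.symm_apply_apply t
  have hτ' : ∀ u, HasDerivAt τ (κ (τ u))⁻¹ u := fun u =>
    HasDerivAt.of_local_left_inverse hτc.continuousAt (hσ' (τ u)) (hκ0 _).ne'
      (Eventually.of_forall hστ)
  have hder : ∀ u, HasDerivAt (fun u => γ (τ u)) (((‖g1 (τ u)‖ / κ (τ u)) : ℝ) • tt u) u := by
    intro u
    have h := (hγ1 (τ u)).scomp u (hτ' u)
    have h2 : (κ (τ u))⁻¹ • g1 (τ u) = ((‖g1 (τ u)‖ / κ (τ u)) : ℝ) • tt u := by
      have h3 : tt u = g1 (τ u) / (‖g1 (τ u)‖ : ℂ) := by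
        rw [tt_eq_I_ee]
        have h4 := heeσ (τ u)
        rw [hστ] at h4
        rw [h4]
        have : Complex.I * (-(Complex.I * g1 (τ u)) / (‖g1 (τ u)‖ : ℂ)) =
          -(Complex.I * Complex.I) * g1 (τ u) / (‖g1 (τ u)‖ : ℂ) := by ring
        rw [this, Complex.I_mul_I]
        ring
      rw [h3]
      have h5 : (‖g1 (τ u)‖ : ℂ) ≠ 0 := by exact_mod_cast (hs0 _).ne'
      have h6 : ((κ (τ u) : ℝ) : ℂ) ≠ 0 := by exact_mod_cast (hκ0 _).ne'
      rw [Complex.real_smul, Complex.real_smul]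
      push_cast
      field_simp
    rw [h2] at h
    exact h
  refine ⟨⟨fun u => γ (τ u), fun u => ‖g1 (τ u)‖ / κ (τ u), ?_, ?_, hder⟩, σ, r0, r1, hr0,
    fun u => hrlo _, fun u => hrhi _, hσc, hσmono, hσper, hsurj, fun t => ⟨hne t, ?_, heeσ t⟩⟩
  · exact (hg1c.comp hτc).norm.div (hκc.comp hτc) fun u => (hκ0 _).ne'
  · intro u
    exact (div_pos (hs0 _) (hκ0 _)).le
  · change γ (τ (σ t)) = γ t
    rw [hτσ]

end Pool.Agent.Helper42.DB.PkREPAR2
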